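import Pool.Agent.helper90.FN.Goals

set_option autoImplicit false

namespace Pool.Agent.helper90.FN

open Finset
open Pool.Agent.helper72.UT (IsFor dep pth rt fors Reg lz)
open Pool.Agent.helper20.HP (ind)

theorem BG (h1 : G1_stmt) : BG_stmt := by
  intro V _ _ G o f g D r w hf hD hg
  obtain ⟨-, -, hdep, -⟩ := h1 V G {o} D f g hf hD hg
  have hg' : IsFor G D g := Pool.Agent.helper72.UT.mem_fors.mp hg
  have hlv : ∀ v, dep {o} (glue D f g) v = lv D (dep {o} f) g v := by
    intro v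
    rw [hdep v]
    unfold lv
    rw [add_comm]
  refine ⟨hlv, ?_⟩
  unfold bs nb
  have hcard : ((D.filter (fun x => r ≤ dep {o} f x ∧ dep {o} f x < r + w)).card : ℝ)
      = ∑ v, ind (v ∈ D ∧ r ≤ dep {o} f v ∧ dep {o} f v < r + w) := by
    have e : D.filter (fun x => r ≤ dep {o} f x ∧ dep {o} f x < r + w)
        = univ.filter (fun v => v ∈ D ∧ r ≤ dep {o} f v ∧ dep {o} f v < r + w) := by
      ext v
      simp
    rw [e, Finset.card_filter]
    push_cast
    refine Finset.sum_congr rfl (fun v _ => ?_)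
    unfold Pool.Agent.helper20.HP.ind
    by_cases h : v ∈ D ∧ r ≤ dep {o} f v ∧ dep {o} f v < r + w
    · rw [if_pos h, if_pos h]
    · rw [if_neg h, if_neg h]
  rw [hcard, ← Finset.sum_add_distrib]
  refine Finset.sum_congr rfl (fun v _ => ?_)
  rw [hlv v]
  unfold Pool.Agent.helper20.HP.ind
  by_cases hv : v ∈ D
  · have e : lv D (dep {o} f) g v = dep {o} f v := by
      unfold lv
      rw [Pool.Agent.helper72.UT.rt_mem hv, Pool.Agent.helper72.UT.dep_mem hv, add_zero]
    have e3 : ¬ (v ∉ D ∧ rt D g v ∈ D ∧ r ≤ dep {o} f v ∧ dep {o} f v < r + w) := fun h => h.1 hv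
    rw [e, if_neg e3, zero_add]
    by_cases h : r ≤ dep {o} f v ∧ dep {o} f v < r + w
    · rw [if_pos h, if_pos ⟨hv, h⟩]
    · rw [if_neg h, if_neg (fun h2 => h h2.2)]
  · have hr : rt D g v ∈ D := hg'.rt_mem_B v
    have e2 : ¬ (v ∈ D ∧ r ≤ dep {o} f v ∧ dep {o} f v < r + w) := fun h => hv h.1
    rw [if_neg e2, add_zero]
    by_cases h : r ≤ lv D (dep {o} f) g v ∧ lv D (dep {o} f) g v < r + w
    · rw [if_pos h, if_pos ⟨hv, hr, h⟩]
    · rw [if_neg h, if_neg (fun h2 => h h2.2.2)]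

end Pool.Agent.helper90.FN
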